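import Pool.Agent.Y753.SHR.R11
import Pool.Agent.Y753.SHR.R16
import Pool.Agent.Y753.SHR.Star
import Pool.Agent.Y901.SHR.Diag

set_option autoImplicit false

/-!
MP_973905_nt. Complete joint moments of real orders near the critical line, of total order at most four: for all `n ≥ 1`,
all real `k_1, ..., k_n > 0` with `k = k_1 + ... + k_n ≤ 2` and all real `a_1, ..., a_n`
`(2δ)^(k²) (1/T) ∫_0^T ∏_j |ζ(1/2 + δ + i(t + a_j δ))|^(2 k_j) dt`
is within `ε` of `a(k) ∏_{j,l} (1 + ((a_j - a_l)/2)²)^(-k_j k_l / 2)` for all large `T` and all `δ` with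
`λ(ε) / log T ≤ δ ≤ 1 / λ(ε)`; it converges to this value if `δ(T) → 0` and `δ(T) log T → ∞`.
-/

open Filter Topology MeasureTheory

/-- the arithmetic factor of the problem -/
noncomputable def Pool.Agent.Results.MP_973905_nt.FullJointMoments.ak (k : ℝ) : ℝ :=
  ∏' p : Nat.Primes, ((1 - 1 / (p : ℝ)) ^ (k ^ 2) *
    ∑' m : ℕ, (Real.Gamma (k + m) / (Real.Gamma k * (m.factorial : ℝ))) ^ 2 / (p : ℝ) ^ m)

open Pool.Agent.Results.MP_973905_nt.FullJointMoments in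
theorem Pool.Agent.Results.MP_973905_nt.FullJointMoments.result
    (n : ℕ) (k a : Fin n → ℝ) (hn : 0 < n) (hk : ∀ j, 0 < k j) (hk2 : ∑ j, k j ≤ 2) : 0 < ak (∑ j, k j) ∧
      (∀ ε : ℝ, 0 < ε → ∃ lam : ℝ, 0 < lam ∧ ∀ᶠ T : ℝ in atTop, ∀ δ : ℝ, lam / Real.log T ≤ δ → δ ≤ 1 / lam →
        |(2 * δ) ^ ((∑ j, k j) ^ 2) * (1 / T *
          ∫ t in (0:ℝ)..T, ∏ j, ‖riemannZeta (1 / 2 + δ + Complex.I * ((t + a j * δ : ℝ) : ℂ))‖ ^ (2 * k j)) -
        ak (∑ j, k j) * ∏ j, ∏ l, (1 + ((a j - a l) / 2) ^ 2) ^ (-(k j * k l / 2))| ≤ ε) ∧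
      ∀ δ : ℝ → ℝ, Tendsto δ atTop (𝓝 0) → Tendsto (fun T : ℝ => δ T * Real.log T) atTop atTop →
        Tendsto (fun T : ℝ => (2 * δ T) ^ ((∑ j, k j) ^ 2) * (1 / T *
          ∫ t in (0:ℝ)..T, ∏ j, ‖riemannZeta (1 / 2 + δ T + Complex.I * ((t + a j * δ T : ℝ) : ℂ))‖ ^ (2 * k j))) atTop
          (𝓝 (ak (∑ j, k j) * ∏ j, ∏ l, (1 + ((a j - a l) / 2) ^ 2) ^ (-(k j * k l / 2)))) := by
  have e1 : ∀ k : ℝ, 0 < k → ∀ m : ℕ, Real.Gamma (k + m) / (Real.Gamma k * (m.factorial : ℝ)) = Pool.Agent.H306R2.lc k m := by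
    intro k hk m
    have hG : Real.Gamma k ≠ 0 := (Real.Gamma_pos_of_pos hk).ne'
    induction m with
    | zero =>
      unfold Pool.Agent.H306R2.lc
      simp [hG]
    | succ m ih =>
      have h1 : Pool.Agent.H306R2.lc k (m + 1) = Pool.Agent.H306R2.lc k m * ((k + m) / ((m : ℝ) + 1)) := by
        unfold Pool.Agent.H306R2.lc
        rw [Finset.prod_range_succ]
      have hkm : k + (m : ℝ) ≠ 0 := by positivity
      have h2 : Real.Gamma (k + ((m + 1 : ℕ) : ℝ)) = (k + m) * Real.Gamma (k + m) := by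
        rw [← Real.Gamma_add_one hkm]
        congr 1
        push_cast
        ring
      have hf : (m.factorial : ℝ) ≠ 0 := by positivity
      rw [h1, ← ih, h2, Nat.factorial_succ]
      push_cast
      field_simp
  have e3 : ∀ k : ℝ, 0 < k → ak k = Pool.Agent.H306R2.aF k := by
    intro k hk
    unfold ak Pool.Agent.H306R2.aF
    refine tprod_congr fun p => ?_
    simp_rw [e1 k hk, one_div, inv_pow, div_eq_mul_inv]
  have hk0 : 0 < ∑ j, k j := Finset.sum_pos (fun j _ => hk j) ⟨⟨0, by omega⟩, Finset.mem_univ _⟩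
  rw [e3 _ hk0]
  have hpath : ∀ δ : ℝ → ℝ, Tendsto δ atTop (𝓝 0) → Tendsto (fun T : ℝ => δ T * Real.log T) atTop atTop →
        Tendsto (fun T : ℝ => (2 * δ T) ^ ((∑ j, k j) ^ 2) * (1 / T *
          ∫ t in (0:ℝ)..T, ∏ j, ‖riemannZeta (1 / 2 + δ T + Complex.I * ((t + a j * δ T : ℝ) : ℂ))‖ ^ (2 * k j))) atTop
          (𝓝 (Pool.Agent.H306R2.aF (∑ j, k j) * ∏ j, ∏ l, (1 + ((a j - a l) / 2) ^ 2) ^ (-(k j * k l / 2)))) := by
    intro δ hδ hδL
    refine (Pool.Agent.Y753.SHR.full_R Pool.Agent.Y901.SHR.done Pool.Agent.Y753.SHR.star hδ hδL hn k a hk hk2).congr' ?_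
    filter_upwards [eventually_gt_atTop 0] with T hT
    rw [integral_Icc_eq_integral_Ioc, ← intervalIntegral.integral_of_le hT.le]
    have e4 : ∀ (t : ℝ) (j : Fin n), (1 / 2 + δ T + ((t + a j * δ T : ℝ) : ℂ) * Complex.I : ℂ) =
        1 / 2 + δ T + Complex.I * ((t + a j * δ T : ℝ) : ℂ) := fun t j => by ring
    unfold Pool.Agent.Y753.SHR.za
    simp_rw [e4]
    ring
  refine ⟨Pool.Agent.H306R2.aF_pos hk0, fun ε hε => ?_, hpath⟩
  exact Pool.Agent.Y753.SHR.unif (f := fun T δ => (2 * δ) ^ ((∑ j, k j) ^ 2) * (1 / T *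
          ∫ t in (0:ℝ)..T, ∏ j, ‖riemannZeta (1 / 2 + δ + Complex.I * ((t + a j * δ : ℝ) : ℂ))‖ ^ (2 * k j))) hpath hε
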