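import Pool.Agent.Y753.SHR.R11
import Pool.Agent.Y753.SHR.R16
import Pool.Agent.Y753.SHR.R19
import Pool.Agent.Y753.SHR.Star
import Pool.Agent.Y901.SHR.Diag

set_option autoImplicit false

/-!
MP_973905_nt. Joint moments of every real order near the critical line, off a small set of large values. Let `δ(T) → 0`,
`δ(T) log T → ∞`, `c ≥ 0`, `S` a countable set of reals and `R` a countable set of positive reals. There are sets
`E(T) ⊆ [0, T]` of measure `o(δ^(4+4c) T)`, at every point of which `|ζ(1/2 + δ + i(t + a δ))| > δ^(-2-c)` for some `a ∈ S`,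
such that for all `n ≥ 1`, all exponents `k_1, ..., k_n ∈ R` and all `a_1, ..., a_n ∈ S` whose sum
`k = k_1 + ... + k_n` satisfies `k ≤ 2` or `k ≥ 2 + 2c` (no condition, if `c = 0`),
`(2δ)^(k²) (1/T) ∫_{[0,T] \ E(T)} ∏_j |ζ(1/2 + δ + i(t + a_j δ))|^(2 k_j) dt`
converges to `a(k) ∏_{j,l} (1 + ((a_j - a_l)/2)²)^(-k_j k_l / 2)`. For the integral over `[0, T]` this is a lower bound,
for all real `k_j > 0` and `a_j`, uniformly for `λ / log T ≤ δ ≤ 1 / λ` as `λ → ∞`.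
-/

open Filter Topology MeasureTheory

/-- the arithmetic factor of the problem -/
noncomputable def Pool.Agent.Results.MP_973905_nt.JointMomentsAllOrders.ak (k : ℝ) : ℝ :=
  ∏' p : Nat.Primes, ((1 - 1 / (p : ℝ)) ^ (k ^ 2) *
    ∑' m : ℕ, (Real.Gamma (k + m) / (Real.Gamma k * (m.factorial : ℝ))) ^ 2 / (p : ℝ) ^ m)

open Pool.Agent.Results.MP_973905_nt.JointMomentsAllOrders in
theorem Pool.Agent.Results.MP_973905_nt.JointMomentsAllOrders.result :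
    (∀ δ : ℝ → ℝ, Tendsto δ atTop (𝓝 0) → Tendsto (fun T : ℝ => δ T * Real.log T) atTop atTop →
    ∀ c : ℝ, 0 ≤ c → ∀ S R : Set ℝ, S.Countable → R.Countable → (∀ r ∈ R, 0 < r) →
    ∃ E : ℝ → Set ℝ, (∀ T, MeasurableSet (E T) ∧ ∀ t ∈ E T, 0 ≤ t ∧ t ≤ T ∧
        ∃ a ∈ S, (δ T) ^ (-(2 + c)) < ‖riemannZeta (1 / 2 + δ T + Complex.I * ((t + a * δ T : ℝ) : ℂ))‖) ∧
      Tendsto (fun T => (volume (E T)).toReal / (T * (δ T) ^ (4 + 4 * c))) atTop (𝓝 0) ∧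
      ∀ (n : ℕ) (k a : Fin n → ℝ), 0 < n → (∀ j, k j ∈ R) → (∀ j, a j ∈ S) → (∑ j, k j ≤ 2 ∨ 2 + 2 * c ≤ ∑ j, k j) →
        0 < ak (∑ j, k j) ∧
        Tendsto (fun T : ℝ => (2 * δ T) ^ ((∑ j, k j) ^ 2) * (1 / T *
          ∫ t in Set.Icc 0 T \ E T, ∏ j, ‖riemannZeta (1 / 2 + δ T + Complex.I * ((t + a j * δ T : ℝ) : ℂ))‖ ^ (2 * k j))) atTop
          (𝓝 (ak (∑ j, k j) * ∏ j, ∏ l, (1 + ((a j - a l) / 2) ^ 2) ^ (-(k j * k l / 2))))) ∧
    ∀ (n : ℕ) (k a : Fin n → ℝ), 0 < n → (∀ j, 0 < k j) → ∀ ε : ℝ, 0 < ε →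
      ∃ lam : ℝ, 0 < lam ∧ ∀ᶠ T : ℝ in atTop, ∀ δ : ℝ, lam / Real.log T ≤ δ → δ ≤ 1 / lam →
        ak (∑ j, k j) * (∏ j, ∏ l, (1 + ((a j - a l) / 2) ^ 2) ^ (-(k j * k l / 2))) - ε ≤
        (2 * δ) ^ ((∑ j, k j) ^ 2) * (1 / T *
          ∫ t in (0:ℝ)..T, ∏ j, ‖riemannZeta (1 / 2 + δ + Complex.I * ((t + a j * δ : ℝ) : ℂ))‖ ^ (2 * k j)) := by
  have e1 : ∀ k : ℝ, 0 < k → ∀ m : ℕ, Real.Gamma (k + m) / (Real.Gamma k * (m.factorial : ℝ)) = Pool.Agent.H306R2.lc k m := by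
    intro k hk m
    have hG : Real.Gamma k ≠ 0 := (Real.Gamma_pos_of_pos hk).ne'
    induction m with
    | zero =>
      unfold Pool.Agent.H306R2.lc
      simp [hG]
    | succ m ih =>
      have h1 : Pool.Agent.H306R2.lc k (m + 1) = Pool.Agent.H306R2.lc k m * ((k + m) / ((m : ℝ) + 1)) := by
        unfold Pool.Agent.H306R2.lc
        rw [Finset.prod_range_succ]
      have hkm : k + (m : ℝ) ≠ 0 := by positivity
      have h2 : Real.Gamma (k + ((m + 1 : ℕ) : ℝ)) = (k + m) * Real.Gamma (k + m) := by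
        rw [← Real.Gamma_add_one hkm]
        congr 1
        push_cast
        ring
      have hf : (m.factorial : ℝ) ≠ 0 := by positivity
      rw [h1, ← ih, h2, Nat.factorial_succ]
      push_cast
      field_simp
  have e3 : ∀ k : ℝ, 0 < k → ak k = Pool.Agent.H306R2.aF k := by
    intro k hk
    unfold ak Pool.Agent.H306R2.aF
    refine tprod_congr fun p => ?_
    simp_rw [e1 k hk, one_div, inv_pow, div_eq_mul_inv]
  constructor
  · intro δ hδ hδL c hc S R hS hR hR0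
    have e4 : ∀ (T t x : ℝ), (1 / 2 + δ T + ((t + x * δ T : ℝ) : ℂ) * Complex.I : ℂ) =
      1 / 2 + δ T + Complex.I * ((t + x * δ T : ℝ) : ℂ) := fun T t x => by ring
    obtain ⟨E, hE, hvol, hm⟩ := Pool.Agent.Y753.SHR.moments_small Pool.Agent.Y901.SHR.done Pool.Agent.Y753.SHR.star hδ hδL hc hS hR hR0
    refine ⟨E, fun T => ⟨(hE T).1, fun t ht => ⟨((hE T).2.1 ht).1, ((hE T).2.1 ht).2, ?_⟩⟩, hvol, fun n k a hn hk ha hcase => ?_⟩
    · obtain ⟨a, ha, h1⟩ := (hE T).2.2 t ht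
      refine ⟨a, ha, ?_⟩
      unfold Pool.Agent.Y753.SHR.za at h1
      rwa [e4] at h1
    have hk0 : 0 < ∑ j, k j := Finset.sum_pos (fun j _ => hR0 _ (hk j)) ⟨⟨0, by omega⟩, Finset.mem_univ _⟩
    rw [e3 _ hk0]
    refine ⟨Pool.Agent.H306R2.aF_pos hk0, ?_⟩
    refine (hm n k a hn hk ha (by
      rcases hcase with h | h
      · left; exact h
      · right; linarith)).congr fun T => ?_
    unfold Pool.Agent.Y753.SHR.za
    simp_rw [e4]
    ring
  · intro n k a hn hk ε hε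
    have hk0 : 0 < ∑ j, k j := Finset.sum_pos (fun j _ => hk j) ⟨⟨0, by omega⟩, Finset.mem_univ _⟩
    rw [e3 _ hk0]
    obtain ⟨M, hM⟩ : ∃ M, M = Pool.Agent.H306R2.aF (∑ j, k j) * ∏ j, ∏ l, (1 + ((a j - a l) / 2) ^ 2) ^ (-(k j * k l / 2)) := ⟨_, rfl⟩
    obtain ⟨f, hf⟩ : ∃ f : ℝ → ℝ → ℝ, ∀ T δ, f T δ = (2 * δ) ^ ((∑ j, k j) ^ 2) * (1 / T *
          ∫ t in (0:ℝ)..T, ∏ j, ‖riemannZeta (1 / 2 + δ + Complex.I * ((t + a j * δ : ℝ) : ℂ))‖ ^ (2 * k j)) := ⟨_, fun _ _ => rfl⟩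
    have hpath : ∀ δ : ℝ → ℝ, Tendsto δ atTop (𝓝 0) → Tendsto (fun T : ℝ => δ T * Real.log T) atTop atTop →
        Tendsto (fun T : ℝ => min (f T (δ T)) M) atTop (𝓝 M) := by
      intro δ hδ hδL
      have e4 : ∀ (T t x : ℝ), (1 / 2 + δ T + ((t + x * δ T : ℝ) : ℂ) * Complex.I : ℂ) =
        1 / 2 + δ T + Complex.I * ((t + x * δ T : ℝ) : ℂ) := fun T t x => by ring
      rw [Metric.tendsto_nhds]
      intro e he
      filter_upwards [Pool.Agent.Y753.SHR.lower_R Pool.Agent.Y901.SHR.done Pool.Agent.Y753.SHR.star hδ hδL hn k a hk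
        (c := M - e / 2) (by rw [← hM]; linarith), eventually_gt_atTop 0] with T hT hT0
      have h1 : M - e / 2 < f T (δ T) := by
        refine hT.trans_le (le_of_eq ?_)
        rw [hf, integral_Icc_eq_integral_Ioc, ← intervalIntegral.integral_of_le hT0.le]
        unfold Pool.Agent.Y753.SHR.za
        simp_rw [e4]
        ring
      rw [Real.dist_eq, abs_lt]
      have h2 : M - e / 2 < min (f T (δ T)) M := lt_min h1 (by linarith)
      have h3 : min (f T (δ T)) M ≤ M := min_le_right _ _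
      constructor <;> linarith
    obtain ⟨lam, hlam, hu⟩ := Pool.Agent.Y753.SHR.unif (f := fun T δ => min (f T δ) M) hpath hε
    refine ⟨lam, hlam, ?_⟩
    filter_upwards [hu] with T hT δ h1 h2
    have h3 := (abs_le.mp (hT δ h1 h2)).1
    have h4 : min (f T δ) M ≤ f T δ := min_le_left _ _
    rw [← hM, ← hf]
    linarith
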