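import Pool.Agent.Y756.K.Main3

set_option autoImplicit false

/-!
An explicit unconditional lower bound of the conjectured order for the third moment of zeta on the
critical line, i.e. the case `k = 3 / 2` of the problem.
-/

open Filter

theorem Pool.Agent.Results.MP_973905_nt.ThirdMomentLower.result :
    ∀ᶠ T : ℝ in atTop,
      7 / 8 * (∏' p : Nat.Primes, ((1 - 1 / (p : ℝ)) ^ ((9 : ℝ) / 4) *
          ∑' m : ℕ, (∏ i ∈ Finset.range m, ((3 : ℝ) / 2 + i) / ((i : ℝ) + 1)) ^ 2 *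
            (1 / (p : ℝ)) ^ m)) / Real.Gamma (13 / 4) * Real.log T ^ ((9 : ℝ) / 4) ≤
        1 / T * ∫ t in (0:ℝ)..T, ‖riemannZeta (1 / 2 + t * Complex.I)‖ ^ 3 := by
  have e : Pool.Agent.H306R2.aF (3 / 2) =
      ∏' p : Nat.Primes, ((1 - 1 / (p : ℝ)) ^ ((9 : ℝ) / 4) *
          ∑' m : ℕ, (∏ i ∈ Finset.range m, ((3 : ℝ) / 2 + i) / ((i : ℝ) + 1)) ^ 2 *
            (1 / (p : ℝ)) ^ m) := by
    unfold Pool.Agent.H306R2.aF Pool.Agent.H306R2.lc
    rw [show (3 / 2 : ℝ) ^ 2 = 9 / 4 by norm_num]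
  filter_upwards [Pool.Agent.Y756.T.main3, eventually_gt_atTop 0] with T hT hT0
  rw [← e, one_div T, ← div_eq_inv_mul, le_div_iff₀ hT0]
  refine le_trans (le_of_eq ?_) hT
  ring
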